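import Pool.Agent.K3h74.GL.Stm

/-!
# Change of the aperture of area functions with a doubling weight
-/

set_option autoImplicit false

open MeasureTheory Set
open scoped ENNReal NNReal

namespace Pool.Agent.K3h65.GL

open Pool.Agent.K3h74.GL

lemma meas_kernel (a : ℝ) (G : ℝ → ℝ → ℝ≥0∞) (hG : Measurable (fun q : ℝ × ℝ => G q.1 q.2)) :
    Measurable (fun t : (ℝ × ℝ) × ℝ => if |t.1.1 - t.1.2| < a * t.2 then G t.1.2 t.2 else 0) := by
  apply Measurable.ite
  · exact measurableSet_lt (by fun_prop) (by fun_prop)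
  · exact hG.comp (measurable_fst.snd.prodMk measurable_snd)
  · exact measurable_const

lemma meas_AA (a : ℝ) (G : ℝ → ℝ → ℝ≥0∞) (hG : Measurable (fun q : ℝ × ℝ => G q.1 q.2)) :
    Measurable (AA a G) := by
  have h1 := meas_kernel a G hG
  have h2 : Measurable (fun t : ℝ × ℝ => ∫⁻ y in Ioi (0 : ℝ),
      if |t.1 - t.2| < a * y then G t.2 y else 0) :=
    Measurable.lintegral_prod_right' (ν := volume.restrict (Ioi (0 : ℝ))) h1
  exact Measurable.lintegral_prod_right' (ν := volume) h2

lemma tonelli (μ : Measure ℝ) [SFinite μ] (a : ℝ) (G : ℝ → ℝ → ℝ≥0∞)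
    (hG : Measurable (fun q : ℝ × ℝ => G q.1 q.2)) (S : Set ℝ) (_hS : MeasurableSet S) :
    ∫⁻ x in S, AA a G x ∂μ =
      ∫⁻ z, ∫⁻ y in Ioi (0 : ℝ), G z y * μ (S ∩ {x | |x - z| < a * y}) := by
  have h1 := meas_kernel a G hG
  have h2 : Measurable (fun t : ℝ × ℝ => ∫⁻ y in Ioi (0 : ℝ),
      if |t.1 - t.2| < a * y then G t.2 y else 0) :=
    Measurable.lintegral_prod_right' (ν := volume.restrict (Ioi (0 : ℝ))) h1
  unfold AA
  rw [lintegral_lintegral_swap (μ := μ.restrict S) (ν := volume)
    (f := fun x z => ∫⁻ y in Ioi (0 : ℝ), if |x - z| < a * y then G z y else 0) h2.aemeasurable]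
  apply lintegral_congr
  intro z
  rw [lintegral_lintegral_swap (μ := μ.restrict S) (ν := volume.restrict (Ioi (0 : ℝ)))
    (f := fun x y => if |x - z| < a * y then G z y else 0)]
  · apply lintegral_congr
    intro y
    have hset : MeasurableSet {x : ℝ | |x - z| < a * y} :=
      measurableSet_lt (by fun_prop) measurable_const
    have : (fun x => if |x - z| < a * y then G z y else 0) =
        ({x : ℝ | |x - z| < a * y}).indicator (fun _ => G z y) := by
      funext x
      simp [Set.indicator]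
    rw [this, lintegral_indicator_const hset, Measure.restrict_apply hset, inter_comm]
  · apply Measurable.aemeasurable
    exact h1.comp ((measurable_fst.prodMk measurable_const).prodMk measurable_snd)

lemma inner_bound (s : ℝ) (hs : 0 < s) (hs1 : s < 1) (c : ℝ≥0∞) :
    ∫⁻ t in Ioi (0 : ℝ), (if c ≤ ENNReal.ofReal t then ENNReal.ofReal (t ^ (s - 2)) * c else 0) ≤
      ENNReal.ofReal (1 / (1 - s)) * c ^ s := by
  rcases eq_or_ne c 0 with rfl | h0
  · simp
  rcases eq_or_ne c ∞ with rfl | htop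
  · simp
  have hc : 0 < c.toReal := ENNReal.toReal_pos h0 htop
  have e1 : ∫⁻ t in Ioi (0 : ℝ),
      (if c ≤ ENNReal.ofReal t then ENNReal.ofReal (t ^ (s - 2)) * c else 0) ≤
      ∫⁻ t in Ici c.toReal, ENNReal.ofReal (t ^ (s - 2)) * c := by
    rw [← lintegral_indicator measurableSet_Ioi, ← lintegral_indicator measurableSet_Ici]
    apply lintegral_mono
    intro t
    simp only [Set.indicator, mem_Ioi, mem_Ici]
    split_ifs with h1 h2 h3 h3
    · exact le_rfl
    · exact absurd (ENNReal.toReal_le_of_le_ofReal h1.le h2) h3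
    · exact zero_le
    · exact zero_le
    · exact zero_le
    · exact zero_le
  refine e1.trans ?_
  rw [lintegral_mul_const _ (by fun_prop), setLIntegral_congr (Ioi_ae_eq_Ici.symm),
    ← ofReal_integral_eq_lintegral_ofReal (integrableOn_Ioi_rpow_of_lt (by linarith) hc)]
  · rw [integral_Ioi_rpow_of_lt (by linarith) hc]
    have e2 : -c.toReal ^ (s - 2 + 1) / (s - 2 + 1) = 1 / (1 - s) * c.toReal ^ (s - 1) := by
      have : s - 2 + 1 = s - 1 := by ring
      rw [this]
      have h3 : s - 1 ≠ 0 := by linarith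
      have h4 : 1 - s ≠ 0 := by linarith
      field_simp
      ring
    rw [e2, ENNReal.ofReal_mul (by apply div_nonneg <;> linarith), mul_assoc]
    gcongr
    rw [← ENNReal.ofReal_rpow_of_pos hc, ENNReal.ofReal_toReal htop]
    calc c ^ (s - 1) * c = c ^ (s - 1) * c ^ (1 : ℝ) := by rw [ENNReal.rpow_one]
      _ = c ^ s := by rw [← ENNReal.rpow_add _ _ h0 htop]; congr 1; ring
      _ ≤ c ^ s := le_rfl
  · filter_upwards [self_mem_ae_restrict measurableSet_Ioi] with t ht
    exact Real.rpow_nonneg (hc.le.trans (le_of_lt ht)) _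

theorem t_APER (hLC : S_LC) (hMMX : S_MMX) (hWEAK : S_WEAK) : S_APER := by
  intro s q D hs hs1 hq hD
  refine ⟨2 * D * (D * ENNReal.ofReal (5 ^ q) + ENNReal.ofReal s * ENNReal.ofReal (1 / (1 - s))), ?_, ?_⟩
  · finiteness
  intro w hw hw0 hwt hloc hdbl G hG a ha
  have ha0 : 0 < a := by linarith
  set μ : Measure ℝ := volume.withDensity w with hμ
  have hμS : ∀ S : Set ℝ, MeasurableSet S → μ S = ∫⁻ x in S, w x := fun S hS =>
    withDensity_apply w hS
  have : SigmaFinite μ := SigmaFinite.withDensity_of_ne_top (by exact Filter.Eventually.of_forall hwt)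
  -- the weight of an interval is positive
  have hIm : ∀ z y : ℝ, MeasurableSet (I z y) := fun z y => measurableSet_Icc
  have hpos : ∀ z y : ℝ, 0 < y → ∫⁻ x in I z y, w x ≠ 0 := by
    intro z y hy h
    rw [lintegral_eq_zero_iff hw] at h
    have h1 : ∀ᵐ x ∂(volume.restrict (I z y)), False := by
      filter_upwards [h] with x hx
      exact hw0 x hx
    have h2 : (volume.restrict (I z y)) univ = 0 := by
      have := ae_iff.1 h1
      simpa using this
    rw [Measure.restrict_apply_univ, I, Real.volume_Icc, ENNReal.ofReal_eq_zero] at h2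
    linarith
  have hD1 : 1 ≤ D := by
    have h := hdbl 0 1 1 one_pos le_rfl
    rw [Real.one_rpow, ENNReal.ofReal_one, mul_one, mul_one] at h
    by_contra hlt
    push Not at hlt
    have h2 : D * (∫⁻ x in I 0 1, w x) < 1 * ∫⁻ x in I 0 1, w x :=
      ENNReal.mul_lt_mul_left (hpos 0 1 one_pos) (hloc 0 1) hlt
    rw [one_mul] at h2
    exact absurd h (not_le.2 h2)
  have hD0 : D ≠ 0 := fun h => by simp [h] at hD1
  have haq : (0 : ℝ) < a ^ q := Real.rpow_pos_of_pos ha0 q
  have haq0 : ENNReal.ofReal (a ^ q) ≠ 0 := by simpa using haq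
  set L : ℝ≥0∞ := (2 * D * ENNReal.ofReal (a ^ q))⁻¹ with hL
  have hden0 : 2 * D * ENNReal.ofReal (a ^ q) ≠ 0 :=
    mul_ne_zero (mul_ne_zero (by norm_num) hD0) haq0
  have hdent : 2 * D * ENNReal.ofReal (a ^ q) ≠ ∞ := by finiteness
  have hL0 : L ≠ 0 := ENNReal.inv_ne_zero.2 hdent
  have hLt : L ≠ ∞ := ENNReal.inv_ne_top.2 hden0
  set h := AA 1 G with hh
  set ha' := AA a G with hha
  have mh : Measurable h := meas_AA 1 G hG
  have mha : Measurable ha' := meas_AA a G hG
  -- good lambda type inequality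
  have key : ∀ t : ℝ, 0 < t → μ {x | ENNReal.ofReal t < ha' x} ≤
      2 * D * ENNReal.ofReal (a ^ q) * (D * ENNReal.ofReal (5 ^ q)) * μ {x | ENNReal.ofReal t < h x} +
      2 * D * ENNReal.ofReal (a ^ q) * ((ENNReal.ofReal t)⁻¹ *
        ∫⁻ x in {x | h x ≤ ENNReal.ofReal t}, h x ∂μ) := by
    intro t ht
    set O : Set ℝ := {x | ENNReal.ofReal t < h x} with hO
    have mO : MeasurableSet O := measurableSet_lt measurable_const mh
    set F : ℝ → ℝ≥0∞ := O.indicator (fun _ => 1) with hF
    have mF : Measurable F := measurable_const.indicator mO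
    set Os : Set ℝ := {x | L < Mw w F x} with hOs
    have mOs : MeasurableSet Os := measurableSet_lt measurable_const (hMMX.2 w F)
    have hFw : ∀ S : Set ℝ, MeasurableSet S → ∫⁻ x in S, F x * w x = μ (O ∩ S) := by
      intro S hS
      rw [hμS _ (mO.inter hS)]
      have : (fun x => F x * w x) = O.indicator w := by
        funext x
        simp only [hF, Set.indicator]
        split_ifs <;> simp
      rw [this, lintegral_indicator mO, Measure.restrict_restrict mO]
    have w1 : μ Os ≤ 2 * D * ENNReal.ofReal (a ^ q) * (D * ENNReal.ofReal (5 ^ q)) * μ O := by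
      have := hWEAK w (D * ENNReal.ofReal (5 ^ q)) hw hw0 hloc (fun z y hy => by
        exact hdbl z y 5 hy (by norm_num)) F mF L hL0 hLt
      rw [← hμS _ mOs] at this
      have e := hFw univ MeasurableSet.univ
      rw [Measure.restrict_univ, inter_univ] at e
      rw [e] at this
      refine this.trans (le_of_eq ?_)
      rw [hL, div_eq_mul_inv, inv_inv]
      ring
    have claim : ∀ z y : ℝ, 0 < y → μ (Osᶜ ∩ {x | |x - z| < a * y}) ≤
        2 * D * ENNReal.ofReal (a ^ q) * μ (Oᶜ ∩ {x | |x - z| < 1 * y}) := by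
      intro z y hy
      rcases (Osᶜ ∩ {x | |x - z| < a * y}).eq_empty_or_nonempty with he | ⟨x0, hx0, hx1⟩
      · rw [he, measure_empty]
        exact zero_le
      have hay : 0 < a * y := mul_pos ha0 hy
      have hx0' : Mw w F x0 ≤ L := not_lt.1 hx0
      have hm1 : μ (O ∩ I z (a * y)) / μ (I z (a * y)) ≤ L := by
        refine le_trans ?_ hx0'
        rw [← hFw _ (hIm _ _), hμS _ (hIm _ _)]
        unfold Mw
        exact le_iSup_of_le z (le_iSup_of_le (a * y) (le_iSup_of_le hx1 le_rfl))
      have hIa0 : μ (I z (a * y)) ≠ 0 := by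
        rw [hμS _ (hIm _ _)]
        exact hpos z _ hay
      have hIat : μ (I z (a * y)) ≠ ∞ := by
        rw [hμS _ (hIm _ _)]
        exact hloc z _
      have hIt : μ (I z y) ≠ ∞ := by
        rw [hμS _ (hIm _ _)]
        exact hloc z _
      have hm2 : μ (O ∩ I z (a * y)) ≤ L * μ (I z (a * y)) :=
        (ENNReal.div_le_iff hIa0 hIat).1 hm1
      have hm3 : μ (I z (a * y)) ≤ D * ENNReal.ofReal (a ^ q) * μ (I z y) := by
        rw [hμS _ (hIm _ _), hμS _ (hIm _ _)]
        exact hdbl z y a hy ha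
      have hm4 : μ (O ∩ I z (a * y)) ≤ 2⁻¹ * μ (I z y) := by
        refine hm2.trans ((mul_le_mul_right hm3 _).trans (le_of_eq ?_))
        rw [hL, mul_assoc 2 D, ENNReal.mul_inv (Or.inl (by norm_num)) (Or.inl (by norm_num)),
          ← mul_assoc, mul_assoc (2⁻¹)]
        rw [ENNReal.inv_mul_cancel (mul_ne_zero hD0 haq0) (by finiteness), mul_one]
      have hsub : I z y ⊆ I z (a * y) := by
        apply Icc_subset_Icc <;> nlinarith
      have hm5 : μ (O ∩ I z y) ≤ 2⁻¹ * μ (I z y) :=
        (measure_mono (inter_subset_inter_right _ hsub)).trans hm4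
      have hm6 : μ (I z y) ≤ 2 * μ (Oᶜ ∩ I z y) := by
        have e1 : μ (I z y) ≤ μ (O ∩ I z y) + μ (Oᶜ ∩ I z y) := by
          refine (measure_mono ?_).trans (measure_union_le _ _)
          intro x hx
          by_cases hxO : x ∈ O
          · exact Or.inl ⟨hxO, hx⟩
          · exact Or.inr ⟨hxO, hx⟩
        have e2 : μ (I z y) ≤ 2⁻¹ * μ (I z y) + μ (Oᶜ ∩ I z y) :=
          e1.trans (add_le_add hm5 le_rfl)
        have e3 : 2⁻¹ * μ (I z y) ≤ μ (Oᶜ ∩ I z y) := by
          have e4 : μ (I z y) = 2⁻¹ * μ (I z y) + 2⁻¹ * μ (I z y) := by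
            rw [← add_mul, ENNReal.inv_two_add_inv_two, one_mul]
          have e5 : 2⁻¹ * μ (I z y) ≠ ∞ := by finiteness
          have e6 : 2⁻¹ * μ (I z y) + 2⁻¹ * μ (I z y) ≤ 2⁻¹ * μ (I z y) + μ (Oᶜ ∩ I z y) := by
            rw [← e4]; exact e2
          exact (ENNReal.add_le_add_iff_left e5).1 e6
        calc μ (I z y) = 2 * (2⁻¹ * μ (I z y)) := by
              rw [← mul_assoc, ENNReal.mul_inv_cancel (by norm_num) (by norm_num), one_mul]
          _ ≤ 2 * μ (Oᶜ ∩ I z y) := by gcongr
      have hm7 : μ (Oᶜ ∩ I z y) = μ (Oᶜ ∩ {x | |x - z| < 1 * y}) := by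
        apply measure_congr
        apply Filter.EventuallyEq.inter (by rfl)
        have e1 : {x | |x - z| < 1 * y} = Ioo (z - y) (z + y) := by
          ext x
          simp only [mem_ofPred_eq, one_mul, abs_lt, mem_Ioo]
          constructor <;> rintro ⟨h1, h2⟩ <;> constructor <;> linarith
        rw [e1]
        have : (Icc (z - y) (z + y) : Set ℝ) =ᵐ[volume] Ioo (z - y) (z + y) := Ioo_ae_eq_Icc.symm
        exact (withDensity_absolutelyContinuous volume w).ae_eq this
      calc μ (Osᶜ ∩ {x | |x - z| < a * y}) ≤ μ (I z (a * y)) := by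
            apply measure_mono
            rintro x ⟨_, hx⟩
            simp only [mem_ofPred_eq, abs_lt] at hx
            constructor <;> linarith [hx.1, hx.2]
        _ ≤ D * ENNReal.ofReal (a ^ q) * μ (I z y) := hm3
        _ ≤ D * ENNReal.ofReal (a ^ q) * (2 * μ (Oᶜ ∩ I z y)) := by gcongr
        _ = 2 * D * ENNReal.ofReal (a ^ q) * μ (Oᶜ ∩ {x | |x - z| < 1 * y}) := by
            rw [hm7]; ring
    have ton : ∫⁻ x in Osᶜ, ha' x ∂μ ≤
        2 * D * ENNReal.ofReal (a ^ q) * ∫⁻ x in Oᶜ, h x ∂μ := by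
      rw [hha, hh, tonelli μ a G hG _ mOs.compl, tonelli μ 1 G hG _ mO.compl,
        ← lintegral_const_mul' _ _ hdent]
      apply lintegral_mono
      intro z
      simp only
      rw [← lintegral_const_mul' _ _ hdent]
      apply lintegral_mono_ae
      filter_upwards [self_mem_ae_restrict measurableSet_Ioi] with y hy
      calc G z y * μ (Osᶜ ∩ {x | |x - z| < a * y}) ≤ G z y *
            (2 * D * ENNReal.ofReal (a ^ q) * μ (Oᶜ ∩ {x | |x - z| < 1 * y})) := by
            gcongr
            exact claim z y hy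
        _ = _ := by ring
    have hOc : Oᶜ = {x | h x ≤ ENNReal.ofReal t} := by
      ext x
      simp [hO]
    have ht0 : ENNReal.ofReal t ≠ 0 := by simpa using ht
    have mark : μ ({x | ENNReal.ofReal t < ha' x} ∩ Osᶜ) ≤
        (ENNReal.ofReal t)⁻¹ * ∫⁻ x in Osᶜ, ha' x ∂μ := by
      have e1 : ENNReal.ofReal t * (μ.restrict Osᶜ) {x | ENNReal.ofReal t ≤ ha' x} ≤
          ∫⁻ x in Osᶜ, ha' x ∂μ := mul_meas_ge_le_lintegral mha _
      have e2 : μ ({x | ENNReal.ofReal t < ha' x} ∩ Osᶜ) ≤
          (μ.restrict Osᶜ) {x | ENNReal.ofReal t ≤ ha' x} := by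
        rw [Measure.restrict_apply (measurableSet_le measurable_const mha)]
        apply measure_mono
        rintro x ⟨h1, h2⟩
        exact ⟨(show ENNReal.ofReal t < ha' x from h1).le, h2⟩
      rw [mul_comm, ← div_eq_mul_inv, ENNReal.le_div_iff_mul_le (Or.inl ht0)
        (Or.inl ENNReal.ofReal_ne_top), mul_comm]
      exact (mul_le_mul_right e2 _).trans e1
    calc μ {x | ENNReal.ofReal t < ha' x} ≤
          μ Os + μ ({x | ENNReal.ofReal t < ha' x} ∩ Osᶜ) := by
          refine (measure_mono ?_).trans (measure_union_le _ _)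
          intro x hx
          by_cases hxO : x ∈ Os
          · exact Or.inl hxO
          · exact Or.inr ⟨hx, hxO⟩
      _ ≤ 2 * D * ENNReal.ofReal (a ^ q) * (D * ENNReal.ofReal (5 ^ q)) * μ O +
          (ENNReal.ofReal t)⁻¹ * (2 * D * ENNReal.ofReal (a ^ q) * ∫⁻ x in Oᶜ, h x ∂μ) := by
          refine add_le_add w1 (mark.trans ?_)
          gcongr
      _ = _ := by
          rw [hOc]; ring
  have lcA := hLC μ s hs ha' mha
  have lcH := hLC μ s hs h mh
  have toμ : ∀ g : ℝ → ℝ≥0∞, Measurable g → ∫⁻ x, g x ^ s * w x = ∫⁻ x, g x ^ s ∂μ := by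
    intro g hg
    rw [hμ, lintegral_withDensity_eq_lintegral_mul _ hw (hg.pow_const s)]
    apply lintegral_congr
    intro x
    simp [mul_comm]
  rw [toμ ha' mha, toμ h mh, lcA]
  -- the second term
  have second : ∫⁻ t in Ioi (0 : ℝ), ENNReal.ofReal (t ^ (s - 1)) * ((ENNReal.ofReal t)⁻¹ *
        ∫⁻ x in {x | h x ≤ ENNReal.ofReal t}, h x ∂μ) ≤
      ENNReal.ofReal (1 / (1 - s)) * ∫⁻ x, h x ^ s ∂μ := by
    have e1 : ∀ t ∈ Ioi (0 : ℝ), ENNReal.ofReal (t ^ (s - 1)) * ((ENNReal.ofReal t)⁻¹ *
        ∫⁻ x in {x | h x ≤ ENNReal.ofReal t}, h x ∂μ) =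
        ∫⁻ x, (if h x ≤ ENNReal.ofReal t then ENNReal.ofReal (t ^ (s - 2)) * h x else 0) ∂μ := by
      intro t ht
      have ht' : (0 : ℝ) < t := ht
      rw [← mul_assoc]
      have e2 : ENNReal.ofReal (t ^ (s - 1)) * (ENNReal.ofReal t)⁻¹ =
          ENNReal.ofReal (t ^ (s - 2)) := by
        rw [← ENNReal.ofReal_inv_of_pos ht', ← ENNReal.ofReal_mul (Real.rpow_nonneg ht'.le _)]
        congr 1
        rw [← Real.rpow_neg_one, ← Real.rpow_add ht']
        congr 1
        ring
      rw [e2, ← lintegral_const_mul' _ _ ENNReal.ofReal_ne_top,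
        ← lintegral_indicator (measurableSet_le mh measurable_const)]
      apply lintegral_congr
      intro x
      simp [Set.indicator]
    rw [setLIntegral_congr_fun measurableSet_Ioi e1,
      lintegral_lintegral_swap (μ := volume.restrict (Ioi (0 : ℝ))) (ν := μ)
      (f := fun t x => if h x ≤ ENNReal.ofReal t then ENNReal.ofReal (t ^ (s - 2)) * h x else 0)]
    · rw [← lintegral_const_mul' _ _ ENNReal.ofReal_ne_top]
      apply lintegral_mono
      intro x
      exact inner_bound s hs hs1 (h x)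
    · apply Measurable.aemeasurable
      apply Measurable.ite
      · exact measurableSet_le (mh.comp measurable_snd)
          (ENNReal.measurable_ofReal.comp measurable_fst)
      · exact (by fun_prop : Measurable fun q : ℝ × ℝ => ENNReal.ofReal (q.1 ^ (s - 2))).mul
          (mh.comp measurable_snd)
      · exact measurable_const
  set E := ENNReal.ofReal (a ^ q) with hE
  calc ENNReal.ofReal s * ∫⁻ t in Ioi (0 : ℝ), ENNReal.ofReal (t ^ (s - 1)) *
        μ {x | ENNReal.ofReal t < ha' x}
      ≤ ENNReal.ofReal s * ∫⁻ t in Ioi (0 : ℝ),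
        (2 * D * E * (D * ENNReal.ofReal (5 ^ q)) * (ENNReal.ofReal (t ^ (s - 1)) *
          μ {x | ENNReal.ofReal t < h x}) +
        2 * D * E * (ENNReal.ofReal (t ^ (s - 1)) * ((ENNReal.ofReal t)⁻¹ *
          ∫⁻ x in {x | h x ≤ ENNReal.ofReal t}, h x ∂μ))) := by
        gcongr ENNReal.ofReal s * ?_
        apply lintegral_mono_ae
        filter_upwards [self_mem_ae_restrict measurableSet_Ioi] with t ht
        refine (mul_le_mul_right (key t ht) _).trans (le_of_eq ?_)
        ring
    _ ≤ 2 * D * E * (D * ENNReal.ofReal (5 ^ q)) * ∫⁻ x, h x ^ s ∂μ +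
        2 * D * E * (ENNReal.ofReal s * (ENNReal.ofReal (1 / (1 - s)) * ∫⁻ x, h x ^ s ∂μ)) := by
        rw [lintegral_add_left, lintegral_const_mul' _ _ (by finiteness),
          lintegral_const_mul' _ _ (by finiteness), mul_add]
        · apply add_le_add
          · rw [lcH]
            apply le_of_eq
            ring
          · calc ENNReal.ofReal s * (2 * D * E * ∫⁻ t in Ioi (0 : ℝ),
                  (ENNReal.ofReal (t ^ (s - 1)) * ((ENNReal.ofReal t)⁻¹ *
                    ∫⁻ x in {x | h x ≤ ENNReal.ofReal t}, h x ∂μ))) =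
                2 * D * E * (ENNReal.ofReal s * ∫⁻ t in Ioi (0 : ℝ),
                  (ENNReal.ofReal (t ^ (s - 1)) * ((ENNReal.ofReal t)⁻¹ *
                    ∫⁻ x in {x | h x ≤ ENNReal.ofReal t}, h x ∂μ))) := by ring
              _ ≤ _ := by gcongr
        · apply Measurable.const_mul
          apply Measurable.mul (by fun_prop)
          have : Antitone (fun t : ℝ => μ {x | ENNReal.ofReal t < h x}) := by
            intro t t' htt
            apply measure_mono
            intro x hx
            exact lt_of_le_of_lt (ENNReal.ofReal_le_ofReal htt) hx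
          exact this.measurable
    _ = 2 * D * (D * ENNReal.ofReal (5 ^ q) + ENNReal.ofReal s * ENNReal.ofReal (1 / (1 - s))) *
        E * ∫⁻ x, h x ^ s ∂μ := by ring

end Pool.Agent.K3h65.GL
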