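import Pool.Agent.K3h27.GL.A2
import Pool.Agent.K3h65.GL.APER

/-!
# The weighted estimate for the area function by extrapolation from `p = 2`
-/

set_option autoImplicit false

open MeasureTheory Set
open scoped ENNReal NNReal

namespace Pool.Agent.K3h65.GL

open Pool.Agent.K3h74.GL
open Pool.Agent.K3h27.GL

lemma ar_two {v : ℝ → ℝ≥0∞} {C : ℝ≥0∞} (hv : Wt 2 v C) (z y : ℝ) (hy : 0 < y) :
    (∫⁻ x in I z y, v x) * (∫⁻ x in I z y, (v x)⁻¹) ≤ C * ENNReal.ofReal y ^ (2 : ℝ) := by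
  have h := hv.ar z y hy
  have e1 : -(1 / ((2 : ℝ) - 1)) = -1 := by norm_num
  have e2 : (2 : ℝ) - 1 = 1 := by norm_num
  rw [e1, e2, ENNReal.rpow_one] at h
  simpa only [ENNReal.rpow_neg_one] using h

lemma int_pos {v : ℝ → ℝ≥0∞} (hw : Measurable v) (hw0 : ∀ x, v x ≠ 0) (z y : ℝ) (hy : 0 < y) :
    ∫⁻ x in I z y, v x ≠ 0 := by
  intro h
  rw [lintegral_eq_zero_iff hw] at h
  have h1 : ∀ᵐ x ∂(volume.restrict (I z y)), False := by
    filter_upwards [h] with x hx
    exact hw0 x hx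
  have h2 : (volume.restrict (I z y)) univ = 0 := by
    have := ae_iff.1 h1
    simpa using this
  rw [Measure.restrict_apply_univ, I, Real.volume_Icc, ENNReal.ofReal_eq_zero] at h2
  linarith

lemma wt_inv {v : ℝ → ℝ≥0∞} {C : ℝ≥0∞} (hC : C ≠ ∞) (hv : Wt 2 v C) :
    Wt 2 (fun x => (v x)⁻¹) C where
  meas := hv.meas.inv
  pos := fun x => ENNReal.inv_ne_zero.2 (hv.fin x)
  fin := fun x => ENNReal.inv_ne_top.2 (hv.pos x)
  loc := by
    intro z y
    rcases le_or_gt y 0 with hy | hy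
    · have h0 : volume (I z y) = 0 := by
        rw [I, Real.volume_Icc, ENNReal.ofReal_eq_zero]
        linarith
      rw [Measure.restrict_eq_zero.2 h0]
      simp
    · have h := ar_two hv z y hy
      intro ht
      rw [ht, ENNReal.mul_top (int_pos hv.meas hv.pos z y hy)] at h
      have : C * ENNReal.ofReal y ^ (2 : ℝ) ≠ ∞ :=
        ENNReal.mul_ne_top hC (ENNReal.rpow_ne_top_of_nonneg (by norm_num) ENNReal.ofReal_ne_top)
      exact this (top_le_iff.1 h)
  ar := by
    intro z y hy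
    have h := ar_two hv z y hy
    have e1 : -(1 / ((2 : ℝ) - 1)) = -1 := by norm_num
    have e2 : (2 : ℝ) - 1 = 1 := by norm_num
    rw [e1, e2, ENNReal.rpow_one]
    simp only [ENNReal.rpow_neg_one, inv_inv]
    rw [mul_comm]
    exact h

section B2

variable {v : ℝ → ℝ≥0∞} {C K : ℝ≥0∞}

lemma u_pos (hv : Wt 2 v C) (x : ℝ) : 0 < (v x).toReal := ENNReal.toReal_pos (hv.pos x) (hv.fin x)

lemma u_ofReal (hv : Wt 2 v C) (x : ℝ) : ENNReal.ofReal (v x).toReal = v x :=
  ENNReal.ofReal_toReal (hv.fin x)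

lemma u_int (hK : K ≠ ∞) (hv : Wt 2 v C)
    (hB : ∀ z y : ℝ, 0 < y → ∫⁻ t, v t * ENNReal.ofReal (y / ((z - t) ^ 2 + y ^ 2)) ≤
      K * (∫⁻ t in I z y, v t) / ENNReal.ofReal y) :
    Integrable (fun t => (v t).toReal / (1 + t ^ 2)) := by
  have hm : Measurable (fun t : ℝ => (v t).toReal / (1 + t ^ 2)) :=
    hv.meas.ennreal_toReal.div (by fun_prop)
  refine ⟨hm.aestronglyMeasurable, ?_⟩
  rw [hasFiniteIntegral_iff_ofReal (Filter.Eventually.of_forall fun t =>
    div_nonneg ENNReal.toReal_nonneg (by positivity))]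
  have h := hB 0 1 one_pos
  have e : ∫⁻ t, v t * ENNReal.ofReal (1 / ((0 - t) ^ 2 + 1 ^ 2)) =
      ∫⁻ t, ENNReal.ofReal ((v t).toReal / (1 + t ^ 2)) := by
    apply lintegral_congr
    intro t
    rw [div_eq_mul_inv ((v t).toReal), ENNReal.ofReal_mul ENNReal.toReal_nonneg, u_ofReal hv]
    congr 2
    rw [one_div]
    congr 1
    ring
  rw [e] at h
  refine lt_of_le_of_lt h ?_
  have := hv.loc 0 1
  rw [ENNReal.ofReal_one, div_one]
  exact ENNReal.mul_lt_top (lt_top_iff_ne_top.2 hK) (lt_top_iff_ne_top.2 this)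

lemma P_ofReal (hv : Wt 2 v C)
    (hi : Integrable (fun t => (v t).toReal / (1 + t ^ 2))) (z : ℝ) {y : ℝ} (hy : 0 < y) :
    ENNReal.ofReal (P (fun t => (v t).toReal) z y) =
      ENNReal.ofReal (1 / Real.pi) * ∫⁻ t, v t * ENNReal.ofReal (y / ((z - t) ^ 2 + y ^ 2)) := by
  rw [P_eq', ofReal_integral_eq_lintegral_ofReal (integrable_pk hi hy)
    (Filter.Eventually.of_forall fun t => mul_nonneg (pk_nonneg hy _) ENNReal.toReal_nonneg),
    ← lintegral_const_mul' _ _ ENNReal.ofReal_ne_top]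
  apply lintegral_congr
  intro t
  rw [ENNReal.ofReal_mul (pk_nonneg hy _), u_ofReal hv]
  unfold pk
  rw [ENNReal.ofReal_mul (by positivity)]
  ring

end B2

lemma AA_congr (a : ℝ) (G G' : ℝ → ℝ → ℝ≥0∞) (h : ∀ z y, 0 < y → G z y = G' z y) (x : ℝ) :
    AA a G x = AA a G' x := by
  unfold AA
  apply lintegral_congr
  intro z
  apply setLIntegral_congr_fun measurableSet_Ioi
  intro y hy
  simp only
  rw [h z y hy]

theorem t_AREA (hPOI : S_POI) (hB2 : S_B2) (hW2 : S_W2) (hRDF : S_RDF) (hA2 : S_A2) : S_AREA := by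
  intro p C hp1 hp2 hC
  obtain ⟨K1, hK1, hR⟩ := hRDF p C hp1 hC
  obtain ⟨C', hC', hW⟩ := hW2 p C K1 hp1 hp2 hC hK1
  obtain ⟨K2, hK2, hB⟩ := hB2 C' hC'
  set Qm : ℝ≥0∞ := ENNReal.ofReal (1 / Real.pi) ^ 2 * K2 ^ 2 * C' with hQ
  have hQt : Qm ≠ ∞ := by rw [hQ]; finiteness
  obtain ⟨K3, hK3, hA⟩ := hA2 Qm.toReal
  have hp0 : 0 < p := by linarith
  have hp2' : 0 < 2 - p := by linarith
  refine ⟨(ENNReal.ofReal (2 * Real.pi) * K3 * K1) ^ (p / 2) * K1 ^ ((2 - p) / 2), ?_, ?_⟩
  · apply ENNReal.mul_ne_top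
    · exact ENNReal.rpow_ne_top_of_nonneg (by positivity) (by finiteness)
    · exact ENNReal.rpow_ne_top_of_nonneg (by positivity) hK1
  intro w hw f hf hfin
  by_cases hf0 : f =ᵐ[volume] 0
  · -- the trivial case
    have hP : ∀ z y, P f z y = 0 := by
      intro z y
      rw [P_eq']
      apply integral_eq_zero_of_ae
      filter_upwards [hf0] with t ht
      simp [ht]
    refine ⟨?_, ?_⟩
    · apply (integrable_zero ℝ ℝ volume).congr
      filter_upwards [hf0] with t ht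
      simp [ht]
    · have : ∀ x, AA 1 (fun z y => ENNReal.ofReal (gradSq f z y)) x = 0 := by
        intro x
        unfold AA gradSq
        simp [hP]
      simp only [this]
      rw [ENNReal.zero_rpow_of_pos (by positivity)]
      simp
  set F : ℝ → ℝ≥0∞ := fun x => ENNReal.ofReal |f x| with hF
  have mF : Measurable F := by
    rw [hF]
    exact (continuous_abs.measurable.comp hf).ennreal_ofReal
  have hF0 : ¬ (F =ᵐ[volume] 0) := by
    intro h
    apply hf0
    filter_upwards [h] with x hx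
    have : |f x| ≤ 0 := ENNReal.ofReal_eq_zero.1 hx
    exact abs_nonpos_iff.1 this
  obtain ⟨g, mg, g0, gt, hFg, hMg, hgp⟩ := hR w hw F mF hfin hF0
  set v : ℝ → ℝ≥0∞ := fun x => g x ^ (p - 2) * w x with hv'
  have hv : Wt 2 v C' := hW w g hw mg g0 gt hMg
  have hvi : Wt 2 (fun x => (v x)⁻¹) C' := wt_inv hC' hv
  have hBv := hB v hv
  have hBi := hB _ hvi
  set u : ℝ → ℝ := fun x => (v x).toReal with hu
  have mu : Measurable u := hv.meas.ennreal_toReal
  have hui : Integrable (fun t => u t / (1 + t ^ 2)) := u_int hK2 hv hBv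
  have hui' : Integrable (fun t => (u t)⁻¹ / (1 + t ^ 2)) := by
    have := u_int hK2 hvi hBi
    simpa only [ENNReal.toReal_inv] using this
  have hPQ : ∀ z y : ℝ, 0 < y → P u z y * P (fun t => (u t)⁻¹) z y ≤ Qm.toReal := by
    intro z y hy
    have hP1 := P_ofReal hv hui z hy
    have hui'' : Integrable (fun t => (((fun x => (v x)⁻¹) t).toReal) / (1 + t ^ 2)) :=
      u_int hK2 hvi hBi
    have hP2 := P_ofReal hvi hui'' z hy
    have e2 : P (fun t => ((fun x => (v x)⁻¹) t).toReal) z y = P (fun t => (u t)⁻¹) z y := by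
      simp only [ENNReal.toReal_inv, hu]
    rw [e2] at hP2
    have hy2 : ENNReal.ofReal y ≠ 0 := by simpa using hy
    have hy3 : ENNReal.ofReal y ≠ ∞ := ENNReal.ofReal_ne_top
    rw [← ENNReal.ofReal_le_iff_le_toReal hQt,
      ENNReal.ofReal_mul (P_pos hui (fun t => u_pos hv t) z hy).le, hP1, hP2]
    calc ENNReal.ofReal (1 / Real.pi) * (∫⁻ t, v t * ENNReal.ofReal (y / ((z - t) ^ 2 + y ^ 2))) *
        (ENNReal.ofReal (1 / Real.pi) *
          ∫⁻ t, (v t)⁻¹ * ENNReal.ofReal (y / ((z - t) ^ 2 + y ^ 2)))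
        ≤ ENNReal.ofReal (1 / Real.pi) * (K2 * (∫⁻ t in I z y, v t) / ENNReal.ofReal y) *
        (ENNReal.ofReal (1 / Real.pi) * (K2 * (∫⁻ t in I z y, (v t)⁻¹) / ENNReal.ofReal y)) := by
          gcongr
          · exact hBv z y hy
          · exact hBi z y hy
      _ = ENNReal.ofReal (1 / Real.pi) ^ 2 * K2 ^ 2 *
          ((∫⁻ t in I z y, v t) * (∫⁻ t in I z y, (v t)⁻¹)) *
          ((ENNReal.ofReal y)⁻¹ * (ENNReal.ofReal y)⁻¹) := by
          simp only [div_eq_mul_inv]
          ring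
      _ ≤ ENNReal.ofReal (1 / Real.pi) ^ 2 * K2 ^ 2 *
          (C' * ENNReal.ofReal y ^ (2 : ℝ)) *
          ((ENNReal.ofReal y)⁻¹ * (ENNReal.ofReal y)⁻¹) := by
          exact mul_le_mul_left (mul_le_mul_right (ar_two hv z y hy) _) _
      _ = ENNReal.ofReal (1 / Real.pi) ^ 2 * K2 ^ 2 * C' *
          ((ENNReal.ofReal y * (ENNReal.ofReal y)⁻¹) * (ENNReal.ofReal y * (ENNReal.ofReal y)⁻¹)) := by
          rw [ENNReal.rpow_two]
          ring
      _ = Qm := by
          rw [ENNReal.mul_inv_cancel hy2 hy3, mul_one, mul_one]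
  -- the integral of f² u
  have hgg : ∀ x, g x ^ (2 : ℝ) * v x = g x ^ p * w x := by
    intro x
    rw [hv']
    simp only
    rw [← mul_assoc, ← ENNReal.rpow_add _ _ (g0 x) (gt x)]
    congr 2
    ring
  have hFv : ∫⁻ t, ENNReal.ofReal (f t ^ 2 * u t) ≤ ∫⁻ x, g x ^ p * w x := by
    apply lintegral_mono_ae
    filter_upwards [hFg] with t ht
    rw [ENNReal.ofReal_mul (sq_nonneg _), u_ofReal hv, ← hgg t, ENNReal.rpow_two]
    gcongr
    rw [← sq_abs, ENNReal.ofReal_pow (abs_nonneg _)]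
    gcongr
  have hXt : ∫⁻ x, g x ^ p * w x ≠ ∞ :=
    ne_top_of_le_ne_top (ENNReal.mul_ne_top hK1 hfin) hgp
  have hfu : Integrable (fun t => f t ^ 2 * u t) := by
    refine ⟨((hf.pow_const 2).mul mu).aestronglyMeasurable, ?_⟩
    rw [hasFiniteIntegral_iff_ofReal (Filter.Eventually.of_forall fun t =>
      mul_nonneg (sq_nonneg _) ENNReal.toReal_nonneg)]
    exact lt_of_le_of_lt hFv (lt_top_iff_ne_top.2 hXt)
  have hfi : Integrable (fun t => f t / (1 + t ^ 2)) := by
    have hs : Integrable (fun t => (1 / 2 : ℝ) * (f t ^ 2 * u t + (u t)⁻¹ / (1 + t ^ 2))) :=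
      (hfu.add hui').const_mul _
    refine hs.mono' (hf.div (by fun_prop)).aestronglyMeasurable
      (Filter.Eventually.of_forall fun t => ?_)
    have hut : 0 < u t := u_pos hv t
    have h1 : (1 : ℝ) ≤ 1 + t ^ 2 := by nlinarith [sq_nonneg t]
    have h1' : (0 : ℝ) < 1 + t ^ 2 := by linarith
    rw [Real.norm_eq_abs, abs_div, abs_of_pos h1']
    have e1 : 0 ≤ (|f t| * u t * (1 + t ^ 2) - 1) ^ 2 := sq_nonneg _
    have e2 : |f t| / (1 + t ^ 2) ≤
        (1 / 2 : ℝ) * (|f t| ^ 2 * u t + (u t)⁻¹ / (1 + t ^ 2) ^ 2) := by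
      rw [div_le_iff₀ h1']
      have : (1 / 2 : ℝ) * (|f t| ^ 2 * u t + (u t)⁻¹ / (1 + t ^ 2) ^ 2) * (1 + t ^ 2) - |f t| =
          (|f t| * u t * (1 + t ^ 2) - 1) ^ 2 / (2 * u t * (1 + t ^ 2)) := by
        field_simp
        ring
      have h3 : 0 ≤ (|f t| * u t * (1 + t ^ 2) - 1) ^ 2 / (2 * u t * (1 + t ^ 2)) := by positivity
      linarith
    refine e2.trans ?_
    rw [sq_abs]
    have h4 : (u t)⁻¹ / (1 + t ^ 2) ^ 2 ≤ (u t)⁻¹ / (1 + t ^ 2) := by
      apply div_le_div_of_nonneg_left (by positivity) h1'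
      nlinarith
    linarith
  refine ⟨hfi, ?_⟩
  have hA' := hA u mu (fun t => u_pos hv t) hui hui' hPQ f hf hfu
  -- the function G
  obtain ⟨Φ, -, -, hΦ⟩ := hPOI f hf hfi
  set G' : ℝ → ℝ → ℝ≥0∞ := fun z y =>
    if 0 < y then ENNReal.ofReal (‖deriv Φ ⟨z, y⟩‖ ^ 2) else 0 with hG'
  have mG' : Measurable (fun q : ℝ × ℝ => G' q.1 q.2) := by
    apply Measurable.ite (measurableSet_lt measurable_const measurable_snd) _ measurable_const
    apply ENNReal.measurable_ofReal.comp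
    apply Measurable.pow_const
    apply Measurable.norm
    apply (measurable_deriv Φ).comp
    have : (fun q : ℝ × ℝ => (⟨q.1, q.2⟩ : ℂ)) = fun q : ℝ × ℝ => (q.1 : ℂ) + q.2 * Complex.I := by
      funext q
      apply Complex.ext <;> simp
    rw [this]
    fun_prop
  have hGG : ∀ z y : ℝ, 0 < y → ENNReal.ofReal (gradSq f z y) = G' z y := by
    intro z y hy
    simp only [hG', if_pos hy]
    rw [hΦ ⟨z, y⟩ hy]
  have hAAe : ∀ x, AA 1 (fun z y => ENNReal.ofReal (gradSq f z y)) x = AA 1 G' x :=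
    fun x => AA_congr 1 _ _ hGG x
  simp only [hAAe]
  have mAA := meas_AA 1 G' mG'
  -- Tonelli
  set μ : Measure ℝ := volume.withDensity v with hμ
  have : SigmaFinite μ := SigmaFinite.withDensity_of_ne_top (Filter.Eventually.of_forall hv.fin)
  have hAv : ∫⁻ x, AA 1 G' x * v x ≤ ENNReal.ofReal (2 * Real.pi) * K3 * K1 * ∫⁻ x, F x ^ p * w x := by
    have e1 : ∫⁻ x, AA 1 G' x * v x = ∫⁻ x in univ, AA 1 G' x ∂μ := by
      rw [Measure.restrict_univ, hμ, lintegral_withDensity_eq_lintegral_mul _ hv.meas mAA]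
      apply lintegral_congr
      intro x
      simp [mul_comm]
    rw [e1, tonelli μ 1 G' mG' univ MeasurableSet.univ]
    have e2 : ∀ z y : ℝ, 0 < y → G' z y * μ (univ ∩ {x | |x - z| < 1 * y}) ≤
        ENNReal.ofReal (2 * Real.pi) * ENNReal.ofReal (y * (P u z y * gradSq f z y)) := by
      intro z y hy
      have hset : MeasurableSet {x : ℝ | |x - z| < 1 * y} :=
        measurableSet_lt (by fun_prop) measurable_const
      have e3 : μ (univ ∩ {x | |x - z| < 1 * y}) ≤
          ENNReal.ofReal (2 * y) * ∫⁻ t, v t * ENNReal.ofReal (y / ((z - t) ^ 2 + y ^ 2)) := by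
        rw [univ_inter, hμ, withDensity_apply _ hset, ← lintegral_const_mul' _ _
          ENNReal.ofReal_ne_top, ← lintegral_indicator hset]
        apply lintegral_mono
        intro t
        simp only [Set.indicator, mem_ofPred_eq]
        split_ifs with ht
        · rw [one_mul, abs_lt] at ht
          have h5 : 1 ≤ ENNReal.ofReal (2 * y) * ENNReal.ofReal (y / ((z - t) ^ 2 + y ^ 2)) := by
            rw [← ENNReal.ofReal_mul (by positivity), ← ENNReal.ofReal_one]
            apply ENNReal.ofReal_le_ofReal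
            rw [← mul_div_assoc, le_div_iff₀ (by positivity)]
            nlinarith [ht.1, ht.2]
          calc v t = 1 * v t := (one_mul _).symm
            _ ≤ ENNReal.ofReal (2 * y) * ENNReal.ofReal (y / ((z - t) ^ 2 + y ^ 2)) * v t := by
              gcongr
            _ = _ := by ring
        · exact zero_le
      have e4 : ∫⁻ t, v t * ENNReal.ofReal (y / ((z - t) ^ 2 + y ^ 2)) =
          ENNReal.ofReal Real.pi * ENNReal.ofReal (P u z y) := by
        have h6 := P_ofReal hv hui z hy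
        rw [show P u z y = P (fun t => (v t).toReal) z y from rfl, h6, ← mul_assoc,
          ← ENNReal.ofReal_mul Real.pi_pos.le]
        have : Real.pi * (1 / Real.pi) = 1 := by
          field_simp
        rw [this, ENNReal.ofReal_one, one_mul]
      rw [e4] at e3
      have hPu : 0 < P u z y := P_pos hui (fun t => u_pos hv t) z hy
      have hgr : 0 ≤ gradSq f z y := by unfold gradSq; positivity
      calc G' z y * μ (univ ∩ {x | |x - z| < 1 * y})
          ≤ G' z y * (ENNReal.ofReal (2 * y) * (ENNReal.ofReal Real.pi * ENNReal.ofReal (P u z y))) := by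
            gcongr
        _ = ENNReal.ofReal (2 * Real.pi) * ENNReal.ofReal (y * (P u z y * gradSq f z y)) := by
            rw [← hGG z y hy, ENNReal.ofReal_mul (by norm_num : (0 : ℝ) ≤ 2),
              ENNReal.ofReal_mul (by norm_num : (0 : ℝ) ≤ 2), ENNReal.ofReal_mul hy.le,
              ENNReal.ofReal_mul hPu.le]
            ring
    calc ∫⁻ z, ∫⁻ y in Ioi (0 : ℝ), G' z y * μ (univ ∩ {x | |x - z| < 1 * y})
        ≤ ∫⁻ z, ∫⁻ y in Ioi (0 : ℝ),
          ENNReal.ofReal (2 * Real.pi) * ENNReal.ofReal (y * (P u z y * gradSq f z y)) := by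
          apply lintegral_mono
          intro z
          apply lintegral_mono_ae
          filter_upwards [self_mem_ae_restrict measurableSet_Ioi] with y hy
          exact e2 z y hy
      _ = ENNReal.ofReal (2 * Real.pi) * ∫⁻ z, ∫⁻ y in Ioi (0 : ℝ),
          ENNReal.ofReal (y * (P u z y * gradSq f z y)) := by
          rw [← lintegral_const_mul' _ _ ENNReal.ofReal_ne_top]
          apply lintegral_congr
          intro z
          rw [lintegral_const_mul' _ _ ENNReal.ofReal_ne_top]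
      _ ≤ ENNReal.ofReal (2 * Real.pi) * (K3 * (K1 * ∫⁻ x, F x ^ p * w x)) := by
          gcongr
          refine hA'.trans ?_
          gcongr
          exact hFv.trans hgp
      _ = _ := by ring
  -- Hoelder
  have hpt : ∀ x, AA 1 G' x ^ (p / 2) * w x =
      ((fun x => (AA 1 G' x * v x) ^ (p / 2)) * (fun x => (g x ^ p * w x) ^ ((2 - p) / 2))) x := by
    intro x
    simp only [Pi.mul_apply]
    rw [hv']
    simp only
    rw [ENNReal.mul_rpow_of_nonneg _ _ (by positivity : 0 ≤ p / 2),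
      ENNReal.mul_rpow_of_nonneg _ _ (by positivity : 0 ≤ p / 2),
      ENNReal.mul_rpow_of_nonneg _ _ (by positivity : 0 ≤ (2 - p) / 2),
      ← ENNReal.rpow_mul, ← ENNReal.rpow_mul]
    have h7 : g x ^ ((p - 2) * (p / 2)) * g x ^ (p * ((2 - p) / 2)) = 1 := by
      rw [← ENNReal.rpow_add _ _ (g0 x) (gt x)]
      have : (p - 2) * (p / 2) + p * ((2 - p) / 2) = 0 := by ring
      rw [this, ENNReal.rpow_zero]
    have h8 : w x ^ (p / 2) * w x ^ ((2 - p) / 2) = w x := by
      rw [← ENNReal.rpow_add _ _ (hw.pos x) (hw.fin x)]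
      have : p / 2 + (2 - p) / 2 = 1 := by ring
      rw [this, ENNReal.rpow_one]
    calc AA 1 G' x ^ (p / 2) * w x = AA 1 G' x ^ (p / 2) *
          (g x ^ ((p - 2) * (p / 2)) * g x ^ (p * ((2 - p) / 2))) *
          (w x ^ (p / 2) * w x ^ ((2 - p) / 2)) := by rw [h7, h8, mul_one]
      _ = _ := by ring
  have hconj : (2 / p).HolderConjugate (2 / (2 - p)) := by
    rw [Real.holderConjugate_iff]
    constructor
    · rw [lt_div_iff₀ hp0]; linarith
    · rw [inv_div, inv_div]; ring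
  calc ∫⁻ x, AA 1 G' x ^ (p / 2) * w x
      = ∫⁻ x, ((fun x => (AA 1 G' x * v x) ^ (p / 2)) *
          (fun x => (g x ^ p * w x) ^ ((2 - p) / 2))) x := lintegral_congr hpt
    _ ≤ (∫⁻ x, ((AA 1 G' x * v x) ^ (p / 2)) ^ (2 / p)) ^ (1 / (2 / p)) *
        (∫⁻ x, ((g x ^ p * w x) ^ ((2 - p) / 2)) ^ (2 / (2 - p))) ^ (1 / (2 / (2 - p))) := by
        apply ENNReal.lintegral_mul_le_Lp_mul_Lq volume hconj
        · exact ((mAA.mul hv.meas).pow_const _).aemeasurable
        · exact (((mg.pow_const _).mul hw.meas).pow_const _).aemeasurable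
    _ = (∫⁻ x, AA 1 G' x * v x) ^ (p / 2) * (∫⁻ x, g x ^ p * w x) ^ ((2 - p) / 2) := by
        have e5 : p / 2 * (2 / p) = 1 := by field_simp
        have e6 : (2 - p) / 2 * (2 / (2 - p)) = 1 := by field_simp
        simp only [← ENNReal.rpow_mul, e5, e6, ENNReal.rpow_one, one_div_div]
    _ ≤ (ENNReal.ofReal (2 * Real.pi) * K3 * K1 * ∫⁻ x, F x ^ p * w x) ^ (p / 2) *
        (K1 * ∫⁻ x, F x ^ p * w x) ^ ((2 - p) / 2) := by
        gcongr
    _ = (ENNReal.ofReal (2 * Real.pi) * K3 * K1) ^ (p / 2) * K1 ^ ((2 - p) / 2) *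
        ∫⁻ x, F x ^ p * w x := by
        rw [ENNReal.mul_rpow_of_nonneg _ _ (by positivity : 0 ≤ p / 2),
          ENNReal.mul_rpow_of_nonneg _ _ (by positivity : 0 ≤ (2 - p) / 2)]
        have h9 : (∫⁻ x, F x ^ p * w x) ^ (p / 2) * (∫⁻ x, F x ^ p * w x) ^ ((2 - p) / 2) =
            ∫⁻ x, F x ^ p * w x := by
          rw [← ENNReal.rpow_add_of_nonneg _ _ (by positivity) (by positivity)]
          have : p / 2 + (2 - p) / 2 = 1 := by ring
          rw [this, ENNReal.rpow_one]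
        calc (ENNReal.ofReal (2 * Real.pi) * K3 * K1) ^ (p / 2) *
              (∫⁻ x, F x ^ p * w x) ^ (p / 2) *
              (K1 ^ ((2 - p) / 2) * (∫⁻ x, F x ^ p * w x) ^ ((2 - p) / 2)) =
              (ENNReal.ofReal (2 * Real.pi) * K3 * K1) ^ (p / 2) * K1 ^ ((2 - p) / 2) *
              ((∫⁻ x, F x ^ p * w x) ^ (p / 2) * (∫⁻ x, F x ^ p * w x) ^ ((2 - p) / 2)) := by ring
          _ = _ := by rw [h9]

end Pool.Agent.K3h65.GL
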